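import Pool.Agent.QPI.DefsF

/-!
Row F_DEG: degree and constant coefficient of `p(forms)`.
-/

set_option autoImplicit false

namespace Pool.Agent.QPI.H28

open MvPolynomial

theorem form_deg {N₁ N₂ : ℕ} {ι : Type} [Fintype ι] (l : Fin N₁ → ι → ℚ)
    (A : Fin N₂ → Matrix ι ι ℚ) (v : Fin N₁ ⊕ Fin N₂) :
    (form l A v).totalDegree ≤ wt v := by
  rcases v with u | v
  · show (∑ s, C (l u s) * X s : MvPolynomial ι ℚ).totalDegree ≤ 1
    refine totalDegree_finsetSum_le fun s _ => ?_
    refine (totalDegree_mul _ _).trans ?_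
    rw [totalDegree_C, totalDegree_X]
  · show (∑ s, ∑ s', C (A v s s') * X s * X s' : MvPolynomial ι ℚ).totalDegree ≤ 2
    refine totalDegree_finsetSum_le fun s _ => ?_
    refine totalDegree_finsetSum_le fun s' _ => ?_
    refine (totalDegree_mul _ _).trans ?_
    rw [totalDegree_X]
    have h := totalDegree_mul (C (A v s s') : MvPolynomial ι ℚ) (X s)
    rw [totalDegree_C, totalDegree_X] at h
    omega

theorem form_cc {N₁ N₂ : ℕ} {ι : Type} [Fintype ι] (l : Fin N₁ → ι → ℚ)
    (A : Fin N₂ → Matrix ι ι ℚ) (v : Fin N₁ ⊕ Fin N₂) :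
    constantCoeff (form l A v) = 0 := by
  rcases v with u | v
  · show constantCoeff (∑ s, C (l u s) * X s : MvPolynomial ι ℚ) = 0
    simp
  · show constantCoeff (∑ s, ∑ s', C (A v s s') * X s * X s' : MvPolynomial ι ℚ) = 0
    simp

theorem deg : DegStmt := by
  intro N₁ N₂ ι _ l A p
  constructor
  · rw [aeval_def, eval₂_eq]
    refine totalDegree_finsetSum_le fun α hα => ?_
    refine (totalDegree_mul _ _).trans ?_
    rw [algebraMap_eq, totalDegree_C, zero_add]
    refine (totalDegree_finsetProd _ _).trans ?_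
    have h1 : ∀ i ∈ α.support, (form l A i ^ α i).totalDegree ≤ α i * wt i := fun i _ =>
      (totalDegree_pow _ _).trans (Nat.mul_le_mul le_rfl (form_deg l A i))
    refine (Finset.sum_le_sum h1).trans ?_
    have h2 := le_weightedTotalDegree (wt : Fin N₁ ⊕ Fin N₂ → ℕ) hα
    rw [Finsupp.weight_apply, Finsupp.sum] at h2
    simpa [smul_eq_mul] using h2
  · have h : (constantCoeff.comp (aeval (form l A) : MvPolynomial (Fin N₁ ⊕ Fin N₂) ℚ →ₐ[ℚ]
        MvPolynomial ι ℚ).toRingHom) =
        (constantCoeff : MvPolynomial (Fin N₁ ⊕ Fin N₂) ℚ →+* ℚ) := by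
      refine MvPolynomial.ringHom_ext (fun r => ?_) fun v => ?_
      · simp
      · simp [form_cc]
    exact congrArg (fun f : MvPolynomial (Fin N₁ ⊕ Fin N₂) ℚ →+* ℚ => f p) h

end Pool.Agent.QPI.H28
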